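import Mathlib
import Pool.Agent.Lib_helper6.Ins.F69

/-!
# Zero sequences up to rotation in weighted Bergman classes

Condition (C) is sufficient once each point may be rotated about the origin; the directions
of the rotated points can be taken from one fixed sequence of unimodular numbers, the same for
all exponents and all sequences.
-/

open MeasureTheory
open scoped ENNReal

namespace Pool.Agent.Results.MP_f69e58_an.RotatedZeros

/-- `n(t)`: the number of indices `j` with `|d_j| ≤ t`, an element of `{0, 1, 2, …, ∞}`. -/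
noncomputable def counting (d : ℕ → ℂ) (t : ℝ) : ℕ∞ := {j : ℕ | ‖d j‖ ≤ t}.encard

/-- `N(r) = ∫_0^r n(t) / t dt`, an element of `[0, ∞]`. -/
noncomputable def intCounting (d : ℕ → ℂ) (r : ℝ) : ℝ≥0∞ :=
  ∫⁻ t in Set.Ioo 0 r, (counting d t : ℝ≥0∞) / ENNReal.ofReal t

/-- Condition (C) for `(p, α)`: `∫_0^1 (1 - r)^α e^{p N(r)} dr < ∞` (where `e^∞ = ∞`). -/
def ConditionC (p α : ℝ) (d : ℕ → ℂ) : Prop :=
  ∫⁻ r in Set.Ioo (0 : ℝ) 1,
    ENNReal.ofReal ((1 - r) ^ α) * EReal.exp ((p : EReal) * (intCounting d r : EReal)) < ∞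

/-- `f ∈ H^p(α)`: `f` is analytic in the unit disc and
`∫_0^{2π} ∫_0^1 (1 - r²)^α |f(r e^{iθ})|^p r dr dθ < ∞`. -/
def InClass (p α : ℝ) (f : ℂ → ℂ) : Prop :=
  DifferentiableOn ℂ f (Metric.ball 0 1) ∧
    ∫⁻ θ in Set.Ioo (0 : ℝ) (2 * Real.pi), ∫⁻ r in Set.Ioo (0 : ℝ) 1,
      ENNReal.ofReal ((1 - r ^ 2) ^ α * ‖f (r * Complex.exp (θ * Complex.I))‖ ^ p * r) < ∞

theorem finite_of_conditionC {p α : ℝ} (hp : 0 < p) {d : ℕ → ℂ} (hC : ConditionC p α d)
    (t : ℝ) (ht : t < 1) : {j : ℕ | ‖d j‖ ≤ t}.Finite := by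
  by_contra hinf
  set s : ℝ := max t (1 / 2) with hs
  have hs1 : s < 1 := by rw [hs]; exact max_lt ht (by norm_num)
  have hs0 : 0 < s := lt_of_lt_of_le (by norm_num) (le_max_right t (1 / 2))
  have hinf' : ∀ u : ℝ, s ≤ u → counting d u = ⊤ := by
    intro u hu
    unfold counting
    rw [Set.encard_eq_top_iff]
    apply Set.Infinite.mono _ hinf
    intro j hj
    have hj' : ‖d j‖ ≤ t := hj
    exact hj'.trans ((le_max_left t (1 / 2)).trans hu)
  have hN : ∀ r : ℝ, s < r → intCounting d r = ⊤ := by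
    intro r hr
    unfold intCounting
    rw [eq_top_iff]
    calc (⊤ : ℝ≥0∞) = ∫⁻ _t in Set.Ioo s r, (⊤ : ℝ≥0∞) := by
          rw [setLIntegral_const, Real.volume_Ioo, ENNReal.top_mul]
          rw [Ne, ENNReal.ofReal_eq_zero]
          linarith
      _ ≤ ∫⁻ t in Set.Ioo s r, (counting d t : ℝ≥0∞) / ENNReal.ofReal t := by
          apply setLIntegral_mono' measurableSet_Ioo
          intro u hu
          rw [hinf' u hu.1.le]
          simp only [ENat.toENNReal_top]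
          rw [ENNReal.top_div_of_ne_top ENNReal.ofReal_ne_top]
      _ ≤ _ := lintegral_mono_set (Set.Ioo_subset_Ioo_left hs0.le)
  have hge : (⊤ : ℝ≥0∞) ≤ ∫⁻ r in Set.Ioo (0 : ℝ) 1,
      ENNReal.ofReal ((1 - r) ^ α) * EReal.exp ((p : EReal) * (intCounting d r : EReal)) := by
    calc (⊤ : ℝ≥0∞) = ∫⁻ _t in Set.Ioo s 1, (⊤ : ℝ≥0∞) := by
          rw [setLIntegral_const, Real.volume_Ioo, ENNReal.top_mul]
          rw [Ne, ENNReal.ofReal_eq_zero]
          linarith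
      _ ≤ ∫⁻ r in Set.Ioo s 1,
          ENNReal.ofReal ((1 - r) ^ α) * EReal.exp ((p : EReal) * (intCounting d r : EReal)) := by
          apply setLIntegral_mono' measurableSet_Ioo
          intro r hr
          rw [hN r hr.1, EReal.coe_ennreal_top, EReal.coe_mul_top_of_pos hp, EReal.exp_top,
            ENNReal.mul_top]
          rw [Ne, ENNReal.ofReal_eq_zero, not_le]
          apply Real.rpow_pos_of_pos
          linarith [hr.2]
      _ ≤ _ := lintegral_mono_set (Set.Ioo_subset_Ioo_left hs0.le)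
  exact absurd hC (not_lt.mpr hge)

theorem intCounting_eq {d : ℕ → ℂ} {A : ℕ → ℕ} (h : Lib_helper6.Sum.Sq (fun j => ‖d j‖) A)
    {r : ℝ} (hr0 : 0 < r) (hr1 : r < 1) (hfin : ∀ t : ℝ, t < 1 → {j : ℕ | ‖d j‖ ≤ t}.Finite) :
    intCounting d r
      = ENNReal.ofReal (∫ t in (0 : ℝ)..r, (Nat.card {j : ℕ // ‖d j‖ ≤ t} : ℝ) / t) := by
  obtain ⟨l, _, hl⟩ := Lib_helper6.Ins.F69.rr_cover hr0.le hr1
  have hint : IntervalIntegrable (fun t : ℝ => (Nat.card {j : ℕ // ‖d j‖ ≤ t} : ℝ) / t)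
      volume 0 r := by
    have h1 : IntervalIntegrable (fun t : ℝ => ∑ j ∈ Finset.range (A (l + 1)),
        (if ‖d j‖ ≤ t then 1 / t else 0)) volume 0 r := by
      rw [intervalIntegrable_iff_integrableOn_Ioc_of_le hr0.le]
      exact integrable_finsetSum _ fun j _ =>
        (intervalIntegrable_iff_integrableOn_Ioc_of_le hr0.le).mp
          (Lib_helper6.NFun.integral_one (h.pos j) r hr0.le).1
    refine h1.congr ?_
    intro t ht
    rw [Set.uIoc_of_le hr0.le] at ht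
    exact (Lib_helper6.NFun.natCard_eq h (l + 1) (ht.2.trans hl.le)).symm
  rw [intervalIntegral.integral_of_le hr0.le,
    ofReal_integral_eq_lintegral_ofReal
      ((intervalIntegrable_iff_integrableOn_Ioc_of_le hr0.le).mp hint)]
  · unfold intCounting
    rw [← restrict_Ioo_eq_restrict_Ioc]
    apply setLIntegral_congr_fun measurableSet_Ioo
    intro t ht
    simp only
    rw [ENNReal.ofReal_div_of_pos ht.1, ENNReal.ofReal_natCast]
    congr 1
    unfold counting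
    rw [← (hfin t (ht.2.trans hr1)).cast_ncard_eq]
    simp only [ENat.toENNReal_coe]
    rfl
  · refine (ae_restrict_iff' measurableSet_Ioc).mpr (Filter.Eventually.of_forall fun t ht => ?_)
    exact div_nonneg (Nat.cast_nonneg _) ht.1.le

theorem discrete_of_conditionC {p α : ℝ} (hp : 0 < p) {d : ℕ → ℂ} {A : ℕ → ℕ}
    (h : Lib_helper6.Sum.Sq (fun j => ‖d j‖) A)
    (hfin : ∀ t : ℝ, t < 1 → {j : ℕ | ‖d j‖ ≤ t}.Finite) (hC : ConditionC p α d) :
    ∑' k : ℕ, ENNReal.ofReal (((1 / 2 : ℝ) ^ (α + 1)) ^ k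
      * Real.exp (p * Lib_helper6.Sum.Nn (fun j => ‖d j‖) A k)) ≠ ∞ := by
  apply Lib_helper6.Ins.F69.discrete' h hp
  refine ne_top_of_le_ne_top (ne_of_lt hC) ?_
  apply setLIntegral_mono' measurableSet_Ioo
  intro r hr
  have hnn : 0 ≤ (1 - r) ^ α := Real.rpow_nonneg (by linarith [hr.2]) _
  have hI : 0 ≤ ∫ t in (0 : ℝ)..r, (Nat.card {j : ℕ // ‖d j‖ ≤ t} : ℝ) / t := by
    apply intervalIntegral.integral_nonneg hr.1.le
    intro t ht
    exact div_nonneg (Nat.cast_nonneg _) ht.1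
  rw [ENNReal.ofReal_mul hnn, intCounting_eq h hr.1 hr.2 hfin, EReal.coe_ennreal_ofReal,
    max_eq_left hI, ← EReal.coe_mul, EReal.exp_coe]

/-- **Zero sequences up to rotation.** There are unimodular numbers `u_0, u_1, u_2, …` such that
for all `p > 0`, `α > -1` and every sequence `(d_j)` in the unit disc with
`0 < |d_j| ≤ |d_{j+1}| < 1` which satisfies condition (C) for `(p, α)`, there are angles
`θ_j ∈ [0, 2π)` with `d_j e^{iθ_j} = |d_j| u_j`, such that the points `d_j e^{iθ_j}` are pairwise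
distinct and are all zeros of some `f ∈ H^p(α)`, `f ≢ 0`. -/
theorem result :
    ∃ u : ℕ → ℂ, (∀ j, ‖u j‖ = 1) ∧
      ∀ p α : ℝ, 0 < p → -1 < α →
      ∀ d : ℕ → ℂ, (∀ j, 0 < ‖d j‖) → (∀ j, ‖d j‖ ≤ ‖d (j + 1)‖) → (∀ j, ‖d j‖ < 1) →
      ConditionC p α d →
      ∃ θ : ℕ → ℝ, (∀ j, 0 ≤ θ j ∧ θ j < 2 * Real.pi) ∧
        (∀ j, d j * Complex.exp (θ j * Complex.I) = ‖d j‖ * u j) ∧
        (∀ i j, i ≠ j → d i * Complex.exp (θ i * Complex.I) ≠ d j * Complex.exp (θ j * Complex.I)) ∧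
        ∃ f : ℂ → ℂ, InClass p α f ∧ (∃ z ∈ Metric.ball (0 : ℂ) 1, f z ≠ 0) ∧
          ∀ j, f (d j * Complex.exp (θ j * Complex.I)) = 0 := by
  refine ⟨fun j => (Lib_helper6.Vdc.v j)⁻¹, fun j => ?_, ?_⟩
  · rw [norm_inv, Lib_helper6.Vdc.norm_v, inv_one]
  intro p α hp _ d hd0 hdm hd1 hC
  have hmono : Monotone (fun j => ‖d j‖) := monotone_nat_of_le_succ hdm
  have hfin := finite_of_conditionC hp hC
  obtain ⟨A, hA⟩ := Lib_helper6.NFun.exists_count (ρ := fun j => ‖d j‖) hmono hd0 hd1 hfin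
  have hsum := discrete_of_conditionC hp hA hfin hC
  have hx : (0 : ℝ) < (1 / 2 : ℝ) ^ (α + 1) := by positivity
  obtain ⟨f, hf, hf0, hfz, hfb⟩ := Lib_helper6.Final.exists_fn hA hp hx hsum
  have hang : ∀ j, ∃ θ : ℝ, θ ∈ Set.Ico 0 (2 * Real.pi) ∧
      d j * Complex.exp ((θ : ℂ) * Complex.I) = (‖d j‖ : ℂ) / Lib_helper6.Vdc.v j := by
    intro j
    exact Lib_helper6.Final.exists_angle (Lib_helper6.Vdc.v j) (Lib_helper6.Vdc.norm_v j)
  choose θ hθ using hang
  refine ⟨θ, fun j => (hθ j).1, fun j => ?_, ?_, f, ⟨hf, ?_⟩, ⟨0, by simp, ?_⟩, ?_⟩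
  · rw [(hθ j).2, div_eq_mul_inv]
  · intro i j hij heq
    rw [(hθ i).2, (hθ j).2] at heq
    have hn : ‖d i‖ = ‖d j‖ := by
      have h1 := congrArg norm heq
      rwa [norm_div, norm_div, Lib_helper6.Vdc.norm_v, Lib_helper6.Vdc.norm_v, div_one, div_one,
        Complex.norm_real, Complex.norm_real, norm_norm, norm_norm] at h1
    rw [hn] at heq
    have hne : (‖d j‖ : ℂ) ≠ 0 := by
      exact_mod_cast (hd0 j).ne'
    have h2 : Lib_helper6.Vdc.v i = Lib_helper6.Vdc.v j := by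
      have hi := Lib_helper6.Vdc.v_ne_zero i
      have hj := Lib_helper6.Vdc.v_ne_zero j
      rw [div_eq_div_iff hi hj] at heq
      exact (mul_left_cancel₀ hne heq).symm
    exact hij (Lib_helper6.Ins.F69.v_injective h2)
  · exact Lib_helper6.Ins.F69.polar_fn hsum hfb
  · rw [hf0]
    exact one_ne_zero
  · intro j
    rw [(hθ j).2]
    exact hfz j

end Pool.Agent.Results.MP_f69e58_an.RotatedZeros
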